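import Mathlib
import Pool.Agent.Helper95.FPPDio
import Pool.Agent.Helper95.FPPFix

set_option autoImplicit false

namespace Pool.Agent.Results.MP_b09029_pr.Settled

open Pool.Agent.Helper95.FPP

theorem result :
    (∀ (d : ℕ) (a b p : ℝ), 0 < a → a < b → 0 < p → p < 1 →
      ∀ (v : Fin d → ℤ) (hv : ∀ i, |v i| ≤ 2), v ≠ 0 → (∃ k, v k = 0) →
        (∑ i, |v i| = 1 → ∃ n : ℕ, 1 ≤ n ∧ ∃ j : (box d n).edgeSet, ∀ C : ℝ,
          ¬ Comparable (box d n) a b p (org d n) (tgt n v hv) j C) ∧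
        (((∑ i, |v i| : ℤ) : ℝ) * (b - a) ≤ 4 * a → ∀ N : ℕ, ∃ n : ℕ, 1 ≤ n ∧ N ≤ n ∧
          ∃ j : (box d n).edgeSet, ∀ C : ℝ,
            ¬ Comparable (box d n) a b p (org d n) (tgt n v hv) j C)) ∧
    (∀ (d : ℕ) (a b p : ℝ), 2 ≤ d → 0 < a → a < b → 0 < p → p < 1 →
      ∀ (v : Fin d → ℤ) (hv : ∀ i, |v i| ≤ 2), v ≠ 0 →
        ∀ (y z : Fin d → ℤ) (hyz : ∑ i, |y i - z i| = 1),
          ∃ n0 : ℕ, ∃ C : ℝ, ∀ n : ℕ, n0 ≤ n →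
            ∃ (hy : ∀ i, |y i| ≤ 2 * (n:ℤ)) (hz : ∀ i, |z i| ≤ 2 * (n:ℤ)),
              Comparable (box d n) a b p (org d n) (tgt n v hv) (edg n y z hy hz hyz) C) := by
  refine ⟨fun d a b p ha hab hp hp1 v hv hv0 hk => ⟨fun hL => ?_, fun hL N => ?_⟩, ?_⟩
  · exact fails_unit ha hab hp hp1 v hv hk hL
  · exact fails_far ha hab hp hp1 v hv hv0 hk hL N
  · intro d a b p hd ha hab hp hp1 v hv hv0 y z hyz
    exact fixed_edge ha hab hp hp1 hd v hv hv0 y z hyz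

end Pool.Agent.Results.MP_b09029_pr.Settled
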